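import Mathlib

set_option autoImplicit false

/-!
# Similar tetrahedra spanned by `n` points: the lower bound `n ^ (5 / 3)`

The previous lower bound `n ^ (4 / 3)` counts homothetic copies of a lattice tetrahedron in a box of
`ℤ³`. Here the rotations are used as well: for an integral quaternion `q` the Euler-Rodrigues matrix
`E q` of the map `v ↦ q v q̄` is an integral matrix, equal to the norm of `q` times a rotation. A
cubic box of `ℤ³` of side of order `m ^ 2` contains the copies `x + E q T` for `m ^ 6` vectors `x`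
and for the `m ^ 4` quaternions `q` with coefficients in `[1, m]`. They are pairwise different up to
a bounded multiplicity. This gives `m ^ 10` copies in a set of order `m ^ 6` points.
-/

namespace Pool.Agent.Results.MP_36f34d_co.SimilarTetrahedra

open Filter

/-- Euclidean space of dimension three. -/
abbrev E3 : Type := EuclideanSpace ℝ (Fin 3)

/-- `T` is a tetrahedron: the set of the members of an affinely independent family of four
points. -/
def IsTetrahedron (T : Finset E3) : Prop :=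
  ∃ v : Fin 4 → E3, AffineIndependent ℝ v ∧ (T : Set E3) = Set.range v

/-- `A` and `B` are similar: `B` is the image of `A` under a scaling `x ↦ r x`, `r > 0`, followed by
an isometry of the whole space. -/
def Similar (A B : Finset E3) : Prop :=
  ∃ (r : ℝ) (g : E3 ≃ᵢ E3), 0 < r ∧ (B : Set E3) = (fun x => g (r • x)) '' (A : Set E3)

/-- `s P T`: the number of subsets of `P` which are tetrahedra similar to `T`. -/
noncomputable def s (P T : Finset E3) : ℕ :=
  Set.ncard {A : Finset E3 | A ⊆ P ∧ IsTetrahedron A ∧ Similar T A}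

/-- `f n`: the maximum of `s P T` over all sets `P` of `n` points and all tetrahedra `T`. -/
noncomputable def f (n : ℕ) : ℕ :=
  sSup {k | ∃ P T : Finset E3, P.card = n ∧ IsTetrahedron T ∧ k = s P T}

/-- The point of space with the given integral coordinates. -/
noncomputable def emb (x : Fin 3 → ℤ) : E3 := WithLp.toLp 2 (fun i => (x i : ℝ))

/-- The Euler-Rodrigues matrix. -/
def rot (q : Fin 4 → ℤ) : Matrix (Fin 3) (Fin 3) ℤ :=
  !![q 0 ^ 2 + q 1 ^ 2 - q 2 ^ 2 - q 3 ^ 2, 2 * (q 1 * q 2 - q 0 * q 3),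
      2 * (q 1 * q 3 + q 0 * q 2);
    2 * (q 1 * q 2 + q 0 * q 3), q 0 ^ 2 - q 1 ^ 2 + q 2 ^ 2 - q 3 ^ 2,
      2 * (q 2 * q 3 - q 0 * q 1);
    2 * (q 1 * q 3 - q 0 * q 2), 2 * (q 2 * q 3 + q 0 * q 1),
      q 0 ^ 2 - q 1 ^ 2 - q 2 ^ 2 + q 3 ^ 2]

/-- The norm of a quaternion. -/
def nrm (q : Fin 4 → ℤ) : ℤ := q 0 ^ 2 + q 1 ^ 2 + q 2 ^ 2 + q 3 ^ 2

/-- The real linear map of the Euler-Rodrigues matrix. -/
noncomputable def lin (q : Fin 4 → ℤ) : E3 →ₗ[ℝ] E3 :=
  Matrix.toEuclideanLin ((rot q).map (fun z : ℤ => (z : ℝ)))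

/-- The vertices of the copies. -/
def pt (t : Fin 4 → Fin 3 → ℤ) (x : Fin 3 → ℤ) (q : Fin 4 → ℤ) (i : Fin 4) : Fin 3 → ℤ :=
  x + (rot q).mulVec (t i)

lemma emb_injective : Function.Injective emb := by
  intro x y h
  funext i
  have h1 : (emb x) i = (emb y) i := by rw [h]
  simpa [emb] using h1

lemma emb_add (x y : Fin 3 → ℤ) : emb (x + y) = emb x + emb y := by
  ext i
  simp [emb]

lemma emb_sub (x y : Fin 3 → ℤ) : emb (x - y) = emb x - emb y := by
  ext i
  simp [emb]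

lemma emb_mulVec (q : Fin 4 → ℤ) (v : Fin 3 → ℤ) : emb ((rot q).mulVec v) = lin q (emb v) := by
  ext i
  simp [emb, lin, Matrix.mulVec, dotProduct]

lemma emb_pt (t : Fin 4 → Fin 3 → ℤ) (x : Fin 3 → ℤ) (q : Fin 4 → ℤ) (i : Fin 4) :
    emb (pt t x q i) = lin q (emb (t i)) + emb x := by
  rw [pt, emb_add, emb_mulVec, add_comm]

lemma norm_lin (q : Fin 4 → ℤ) (v : E3) : ‖lin q v‖ = (nrm q : ℝ) * ‖v‖ := by
  have hn : (0 : ℝ) ≤ (nrm q : ℝ) := by
    have : (0 : ℤ) ≤ nrm q := by unfold nrm; positivity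
    exact_mod_cast this
  have h1 : ‖lin q v‖ ^ 2 = ((nrm q : ℝ) * ‖v‖) ^ 2 := by
    rw [mul_pow, EuclideanSpace.norm_sq_eq, EuclideanSpace.norm_sq_eq]
    simp only [Fin.sum_univ_three, Real.norm_eq_abs, sq_abs]
    simp only [lin, Matrix.toLpLin_apply, Matrix.mulVec, dotProduct, Fin.sum_univ_three,
      Matrix.map_apply, rot, nrm]
    simp [Matrix.of_apply, Matrix.cons_val_zero, Matrix.cons_val_one]
    ring
  exact (sq_eq_sq₀ (norm_nonneg _) (mul_nonneg hn (norm_nonneg _))).1 h1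

/-- The isometry of the whole space obtained by dividing by the norm and translating. -/
lemma exists_isometry (q : Fin 4 → ℤ) (hq : 0 < nrm q) (y : E3) :
    ∃ g : E3 ≃ᵢ E3, ∀ v : E3, g ((nrm q : ℝ) • v) = lin q v + y := by
  have hn : (0 : ℝ) < (nrm q : ℝ) := by exact_mod_cast hq
  let li : E3 →ₗᵢ[ℝ] E3 :=
    { toLinearMap := ((nrm q : ℝ)⁻¹) • lin q
      norm_map' := by
        intro v
        rw [LinearMap.smul_apply, norm_smul, norm_lin, Real.norm_eq_abs, abs_inv, abs_of_pos hn]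
        field_simp }
  let le : E3 ≃ₗᵢ[ℝ] E3 := li.toLinearIsometryEquiv rfl
  refine ⟨le.toIsometryEquiv.trans (IsometryEquiv.addRight y), ?_⟩
  intro v
  have h1 : le ((nrm q : ℝ) • v) = lin q v := by
    show ((nrm q : ℝ)⁻¹) • lin q ((nrm q : ℝ) • v) = lin q v
    rw [map_smul, smul_smul, inv_mul_cancel₀ hn.ne', one_smul]
  show le ((nrm q : ℝ) • v) + y = lin q v + y
  rw [h1]

lemma lin_injective (q : Fin 4 → ℤ) (hq : 0 < nrm q) : Function.Injective (lin q) := by
  have hn : (0 : ℝ) < (nrm q : ℝ) := by exact_mod_cast hq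
  rw [injective_iff_map_eq_zero]
  intro v hv
  have h1 := norm_lin q v
  rw [hv, norm_zero] at h1
  have h2 : ‖v‖ = 0 := by
    rcases mul_eq_zero.1 h1.symm with h | h
    · exact absurd h hn.ne'
    · exact h
  exact norm_eq_zero.1 h2

lemma affineIndependent_pt (t : Fin 4 → Fin 3 → ℤ)
    (ht : AffineIndependent ℝ (fun i => emb (t i))) (x : Fin 3 → ℤ) (q : Fin 4 → ℤ)
    (hq : 0 < nrm q) : AffineIndependent ℝ (fun i => emb (pt t x q i)) := by
  have h1 := ht.map' ((lin q).toAffineMap + AffineMap.const ℝ E3 (emb x)) (by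
    intro u v huv
    apply lin_injective q hq
    simpa using huv)
  have h2 : (fun i => emb (pt t x q i)) =
      (((lin q).toAffineMap + AffineMap.const ℝ E3 (emb x) : E3 →ᵃ[ℝ] E3) ∘
        fun i => emb (t i)) := by
    funext i
    simp [emb_pt]
  rw [h2]
  exact h1

/-- Two quaternions with positive coefficients and the same matrix are equal. -/
lemma rot_inj (q r : Fin 4 → ℤ) (hq : ∀ i, 0 < q i) (hr : ∀ i, 0 < r i) (h : rot q = rot r) :
    q = r := by
  have e01 := congrFun (congrFun h 0) 1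
  have e10 := congrFun (congrFun h 1) 0
  have e02 := congrFun (congrFun h 0) 2
  have e20 := congrFun (congrFun h 2) 0
  have e12 := congrFun (congrFun h 1) 2
  have e21 := congrFun (congrFun h 2) 1
  simp [rot] at e01 e10 e02 e20 e12 e21
  have p01 : q 0 * q 1 = r 0 * r 1 := by linarith
  have p02 : q 0 * q 2 = r 0 * r 2 := by linarith
  have p03 : q 0 * q 3 = r 0 * r 3 := by linarith
  have p12 : q 1 * q 2 = r 1 * r 2 := by linarith
  have key : ∀ a b c a' b' c' : ℤ, 0 < a → 0 < b → 0 < c → 0 < a' → a * b = a' * b' →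
      a * c = a' * c' → b * c = b' * c' → a = a' := by
    intro a b c a' b' c' ha hb hc ha' h1 h2 h3
    have h4 : a ^ 2 * (b * c) = a' ^ 2 * (b * c) := by
      calc a ^ 2 * (b * c) = (a * b) * (a * c) := by ring
        _ = (a' * b') * (a' * c') := by rw [h1, h2]
        _ = a' ^ 2 * (b' * c') := by ring
        _ = a' ^ 2 * (b * c) := by rw [h3]
    have h5 : a ^ 2 = a' ^ 2 := mul_right_cancel₀ (mul_pos hb hc).ne' h4
    nlinarith
  have h0 : q 0 = r 0 := key _ _ _ _ _ _ (hq 0) (hq 1) (hq 2) (hr 0) p01 p02 p12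
  have cancel : ∀ b b' : ℤ, q 0 * b = r 0 * b' → b = b' := by
    intro b b' hb
    rw [← h0] at hb
    exact mul_left_cancel₀ (hq 0).ne' hb
  funext i
  fin_cases i
  · exact h0
  · exact cancel _ _ p01
  · exact cancel _ _ p02
  · exact cancel _ _ p03

/-- The copies determine the parameters. -/
lemma pt_inj (t : Fin 4 → Fin 3 → ℤ) (ht : AffineIndependent ℝ (fun i => emb (t i)))
    (x y : Fin 3 → ℤ) (q r : Fin 4 → ℤ) (hq : ∀ i, 0 < q i) (hr : ∀ i, 0 < r i)
    (h : ∀ i, pt t x q i = pt t y r i) : x = y ∧ q = r := by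
  have hli := (affineIndependent_iff_linearIndependent_vsub ℝ (fun i => emb (t i)) 0).1 ht
  have hcard : Fintype.card {i : Fin 4 // i ≠ 0} = Module.finrank ℝ E3 := by
    simp [finrank_euclideanSpace]
  have hsp := hli.span_eq_top_of_card_eq_finrank' hcard
  have hlin : lin q = lin r := by
    apply LinearMap.ext_on_range hsp
    intro i
    have h1 : lin q (emb (t i)) + emb x = lin r (emb (t i)) + emb y := by
      rw [← emb_pt, ← emb_pt, h]
    have h0 : lin q (emb (t 0)) + emb x = lin r (emb (t 0)) + emb y := by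
      rw [← emb_pt, ← emb_pt, h]
    rw [vsub_eq_sub, map_sub, map_sub]
    have h2 : lin q (emb (t i)) = lin r (emb (t i)) + emb y - emb x := by
      rw [← h1]; abel
    have h3 : lin q (emb (t 0)) = lin r (emb (t 0)) + emb y - emb x := by
      rw [← h0]; abel
    rw [h2, h3]
    abel
  have hrot : rot q = rot r := by
    have h1 : (rot q).map (fun z : ℤ => (z : ℝ)) = (rot r).map (fun z : ℤ => (z : ℝ)) := by
      apply Matrix.toEuclideanLin.injective
      exact hlin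
    ext i j
    have h2 := congrFun (congrFun h1 i) j
    simpa using h2
  have hqr := rot_inj q r hq hr hrot
  refine ⟨?_, hqr⟩
  have h0 := h 0
  rw [pt, pt, hqr] at h0
  exact add_right_cancel h0

lemma abs_two_mul_le (a b c d M : ℤ) (ha : a ^ 2 ≤ M) (hb : b ^ 2 ≤ M) (hc : c ^ 2 ≤ M)
    (hd : d ^ 2 ≤ M) : |2 * (a * b + c * d)| ≤ 4 * M ∧ |2 * (a * b - c * d)| ≤ 4 * M := by
  have h1 := sq_nonneg (a - b)
  have h2 := sq_nonneg (a + b)
  have h3 := sq_nonneg (c - d)
  have h4 := sq_nonneg (c + d)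
  constructor
  · rw [abs_le]
    constructor <;> linarith
  · rw [abs_le]
    constructor <;> linarith

lemma abs_diag_le (a b c d M : ℤ) (ha : 0 ≤ a) (hb : 0 ≤ b) (hc : 0 ≤ c) (hd : 0 ≤ d)
    (ha' : a ≤ M) (hb' : b ≤ M) (hc' : c ≤ M) (hd' : d ≤ M) :
    |a + b - c - d| ≤ 4 * M ∧ |a - b + c - d| ≤ 4 * M ∧ |a - b - c + d| ≤ 4 * M := by
  refine ⟨?_, ?_, ?_⟩ <;> rw [abs_le] <;> constructor <;> linarith

/-- The entries of the matrix are bounded. -/
lemma rot_bound (q : Fin 4 → ℤ) (m : ℤ) (hq : ∀ i, 1 ≤ q i ∧ q i ≤ m) (i j : Fin 3) :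
    |rot q i j| ≤ 4 * m ^ 2 := by
  have hb : ∀ i, q i ^ 2 ≤ m ^ 2 := by
    intro i
    have := hq i
    nlinarith
  have h0 := hb 0
  have h1 := hb 1
  have h2 := hb 2
  have h3 := hb 3
  obtain ⟨d1, d2, d3⟩ := abs_diag_le (q 0 ^ 2) (q 1 ^ 2) (q 2 ^ 2) (q 3 ^ 2) (m ^ 2)
    (sq_nonneg _) (sq_nonneg _) (sq_nonneg _) (sq_nonneg _) h0 h1 h2 h3
  obtain ⟨a1, b1⟩ := abs_two_mul_le (q 1) (q 2) (q 0) (q 3) (m ^ 2) h1 h2 h0 h3
  obtain ⟨a2, b2⟩ := abs_two_mul_le (q 1) (q 3) (q 0) (q 2) (m ^ 2) h1 h3 h0 h2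
  obtain ⟨a3, b3⟩ := abs_two_mul_le (q 2) (q 3) (q 0) (q 1) (m ^ 2) h2 h3 h0 h1
  fin_cases i <;> fin_cases j
  · exact d1
  · exact b1
  · exact a2
  · exact a1
  · exact d2
  · exact b3
  · exact b2
  · exact a3
  · exact d3

lemma pt_bound (t : Fin 4 → Fin 3 → ℤ) (B : ℤ) (hB : ∀ i j, |t i j| ≤ B) (x : Fin 3 → ℤ)
    (q : Fin 4 → ℤ) (m : ℤ) (hq : ∀ i, 1 ≤ q i ∧ q i ≤ m) (i : Fin 4) (j : Fin 3) :
    |pt t x q i j - x j| ≤ 12 * B * m ^ 2 := by
  have hm : 0 ≤ 4 * m ^ 2 := by positivity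
  have h1 : pt t x q i j - x j = rot q j 0 * t i 0 + rot q j 1 * t i 1 + rot q j 2 * t i 2 := by
    simp [pt, Matrix.mulVec, dotProduct, Fin.sum_univ_three]
  have h2 : ∀ k, |rot q j k * t i k| ≤ 4 * m ^ 2 * B := by
    intro k
    rw [abs_mul]
    exact mul_le_mul (rot_bound q m hq j k) (hB i k) (abs_nonneg _) hm
  rw [h1]
  calc |rot q j 0 * t i 0 + rot q j 1 * t i 1 + rot q j 2 * t i 2|
      ≤ |rot q j 0 * t i 0 + rot q j 1 * t i 1| + |rot q j 2 * t i 2| := abs_add_le _ _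
    _ ≤ |rot q j 0 * t i 0| + |rot q j 1 * t i 1| + |rot q j 2 * t i 2| := by
        gcongr
        exact abs_add_le _ _
    _ ≤ 4 * m ^ 2 * B + 4 * m ^ 2 * B + 4 * m ^ 2 * B := by
        gcongr
        · exact h2 0
        · exact h2 1
        · exact h2 2
    _ = 12 * B * m ^ 2 := by ring

/-- The integral points of the box. -/
noncomputable def box (B m : ℕ) : Finset (Fin 3 → ℤ) :=
  Fintype.piFinset fun _ => Finset.Ico (-(12 * (B : ℤ) * (m : ℤ) ^ 2))
    ((m : ℤ) ^ 2 + 12 * (B : ℤ) * (m : ℤ) ^ 2)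

/-- The parameters of the copies. -/
noncomputable def params (m : ℕ) : Finset ((Fin 3 → ℤ) × (Fin 4 → ℤ)) :=
  (Fintype.piFinset fun _ => Finset.Ico (0 : ℤ) ((m : ℤ) ^ 2)) ×ˢ
    (Fintype.piFinset fun _ => Finset.Icc (1 : ℤ) (m : ℤ))

lemma card_box (B m : ℕ) : (box B m).card = (24 * B + 1) ^ 3 * m ^ 6 := by
  rw [box, Fintype.card_piFinset]
  simp only [Int.card_Ico, Finset.prod_const, Finset.card_univ, Fintype.card_fin]
  have h1 : ((m : ℤ) ^ 2 + 12 * (B : ℤ) * (m : ℤ) ^ 2 - -(12 * (B : ℤ) * (m : ℤ) ^ 2)) =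
      (((24 * B + 1) * m ^ 2 : ℕ) : ℤ) := by
    push_cast
    ring
  rw [h1, Int.toNat_natCast]
  ring

lemma card_params (m : ℕ) : (params m).card = m ^ 10 := by
  rw [params, Finset.card_product, Fintype.card_piFinset, Fintype.card_piFinset]
  simp only [Int.card_Ico, Int.card_Icc, Finset.prod_const, Finset.card_univ, Fintype.card_fin]
  have h1 : ((m : ℤ) ^ 2 - 0).toNat = m ^ 2 := by
    rw [sub_zero]
    have : ((m : ℤ) ^ 2) = ((m ^ 2 : ℕ) : ℤ) := by push_cast; ring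
    rw [this, Int.toNat_natCast]
  have h2 : ((m : ℤ) + 1 - 1).toNat = m := by
    rw [add_sub_cancel_right, Int.toNat_natCast]
  rw [h1, h2]
  ring

/-- The copy with the given parameters. -/
noncomputable def copy (t : Fin 4 → Fin 3 → ℤ) (p : (Fin 3 → ℤ) × (Fin 4 → ℤ)) : Finset E3 :=
  (Finset.univ : Finset (Fin 4)).image fun i => emb (pt t p.1 p.2 i)

lemma mem_params {m : ℕ} {p : (Fin 3 → ℤ) × (Fin 4 → ℤ)} (hp : p ∈ params m) :
    (∀ j, 0 ≤ p.1 j ∧ p.1 j < (m : ℤ) ^ 2) ∧ ∀ i, 1 ≤ p.2 i ∧ p.2 i ≤ (m : ℤ) := by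
  rw [params, Finset.mem_product, Fintype.mem_piFinset, Fintype.mem_piFinset] at hp
  exact ⟨fun j => Finset.mem_Ico.1 (hp.1 j), fun i => Finset.mem_Icc.1 (hp.2 i)⟩

lemma coe_copy (t : Fin 4 → Fin 3 → ℤ) (p : (Fin 3 → ℤ) × (Fin 4 → ℤ)) :
    (copy t p : Set E3) = Set.range fun i => emb (pt t p.1 p.2 i) := by
  simp [copy]

lemma nrm_pos {q : Fin 4 → ℤ} (hq : 0 < q 0) : 0 < nrm q := by
  unfold nrm
  positivity

lemma copy_subset (t : Fin 4 → Fin 3 → ℤ) (B : ℕ) (hB : ∀ i j, |t i j| ≤ (B : ℤ)) (m : ℕ)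
    {p : (Fin 3 → ℤ) × (Fin 4 → ℤ)} (hp : p ∈ params m) :
    copy t p ⊆ (box B m).image emb := by
  obtain ⟨h1, h2⟩ := mem_params hp
  intro z hz
  rw [copy, Finset.mem_image] at hz
  obtain ⟨i, -, rfl⟩ := hz
  apply Finset.mem_image_of_mem
  rw [box, Fintype.mem_piFinset]
  intro j
  have h3 := pt_bound t B hB p.1 p.2 m h2 i j
  rw [abs_le] at h3
  have h4 := h1 j
  rw [Finset.mem_Ico]
  constructor <;> linarith [h3.1, h3.2, h4.1, h4.2]

lemma copy_similar (t : Fin 4 → Fin 3 → ℤ) (T : Finset E3)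
    (hT : (T : Set E3) = Set.range fun i => emb (t i)) (m : ℕ)
    {p : (Fin 3 → ℤ) × (Fin 4 → ℤ)} (hp : p ∈ params m) : Similar T (copy t p) := by
  obtain ⟨-, h2⟩ := mem_params hp
  have hn : 0 < nrm p.2 := nrm_pos (by linarith [(h2 0).1])
  obtain ⟨g, hg⟩ := exists_isometry p.2 hn (emb p.1)
  refine ⟨(nrm p.2 : ℝ), g, by exact_mod_cast hn, ?_⟩
  rw [coe_copy, hT, ← Set.range_comp]
  congr 1
  funext i
  simp only [Function.comp_apply]
  rw [hg, emb_pt]

lemma copy_tetra (t : Fin 4 → Fin 3 → ℤ) (ht : AffineIndependent ℝ (fun i => emb (t i))) (m : ℕ)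
    {p : (Fin 3 → ℤ) × (Fin 4 → ℤ)} (hp : p ∈ params m) : IsTetrahedron (copy t p) := by
  obtain ⟨-, h2⟩ := mem_params hp
  have hn : 0 < nrm p.2 := nrm_pos (by linarith [(h2 0).1])
  exact ⟨_, affineIndependent_pt t ht p.1 p.2 hn, coe_copy t p⟩

/-- The number of different copies. -/
lemma card_copies (t : Fin 4 → Fin 3 → ℤ) (ht : AffineIndependent ℝ (fun i => emb (t i)))
    (m : ℕ) : m ^ 10 ≤ 256 * ((params m).image (copy t)).card := by
  rw [← card_params]
  apply Finset.card_le_mul_card_image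
  intro A hA
  obtain ⟨p0, hp0, rfl⟩ := Finset.mem_image.1 hA
  have hcard : (copy t p0).card ≤ 4 := by
    refine le_trans Finset.card_image_le ?_
    simp
  calc ((params m).filter fun p => copy t p = copy t p0).card
      ≤ (Fintype.piFinset fun _ : Fin 4 => copy t p0).card := by
        apply Finset.card_le_card_of_injOn (fun p i => emb (pt t p.1 p.2 i))
        · intro p hp
          rw [Finset.mem_coe, Finset.mem_filter] at hp
          rw [Finset.mem_coe, Fintype.mem_piFinset]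
          intro i
          rw [← hp.2, copy]
          exact Finset.mem_image_of_mem _ (Finset.mem_univ i)
        · intro p hp r hr hpr
          rw [Finset.mem_coe, Finset.mem_filter] at hp hr
          obtain ⟨-, h2⟩ := mem_params hp.1
          obtain ⟨-, h3⟩ := mem_params hr.1
          have h4 := pt_inj t ht p.1 r.1 p.2 r.2 (fun i => by linarith [(h2 i).1])
            (fun i => by linarith [(h3 i).1])
            (fun i => emb_injective (congrFun hpr i))
          exact Prod.ext h4.1 h4.2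
    _ = (copy t p0).card ^ 4 := by
        rw [Fintype.card_piFinset]
        simp
    _ ≤ 4 ^ 4 := Nat.pow_le_pow_left hcard 4
    _ = 256 := by norm_num

lemma finite_s (P T : Finset E3) :
    {A : Finset E3 | A ⊆ P ∧ IsTetrahedron A ∧ Similar T A}.Finite := by
  apply Set.Finite.subset (Finset.finite_toSet P.powerset)
  intro A hA
  rw [Finset.mem_coe, Finset.mem_powerset]
  exact hA.1

lemma s_le (P T : Finset E3) : s P T ≤ 2 ^ P.card := by
  have h1 : s P T ≤ Set.ncard (P.powerset : Set (Finset E3)) := by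
    apply Set.ncard_le_ncard _ (Finset.finite_toSet _)
    intro A hA
    rw [Finset.mem_coe, Finset.mem_powerset]
    exact hA.1
  rwa [Set.ncard_coe_finset, Finset.card_powerset] at h1

lemma s_le_f (P T : Finset E3) (hT : IsTetrahedron T) : s P T ≤ f P.card := by
  apply le_csSup
  · refine ⟨2 ^ P.card, ?_⟩
    rintro k ⟨Q, T', hQ, -, rfl⟩
    rw [← hQ]
    exact s_le Q T'
  · exact ⟨P, T, rfl, hT, rfl⟩

/-- For every integral tetrahedron and all large `n` there is a set of `n` points with many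
similar copies. -/
lemma exists_points (t : Fin 4 → Fin 3 → ℤ) (ht : AffineIndependent ℝ (fun i => emb (t i)))
    (T : Finset E3) (hT : (T : Set E3) = Set.range fun i => emb (t i)) :
    ∃ c : ℝ, 0 < c ∧ ∀ᶠ n : ℕ in atTop, ∃ P : Finset E3, P.card = n ∧
      c * (n : ℝ) ^ ((5 : ℝ) / 3) ≤ (s P T : ℝ) := by
  obtain ⟨B, hB⟩ : ∃ B : ℕ, ∀ i j, |t i j| ≤ (B : ℤ) := by
    refine ⟨∑ i, ∑ j, (t i j).natAbs, ?_⟩
    intro i j
    rw [Int.abs_eq_natAbs]
    have h1 : (t i j).natAbs ≤ ∑ j, (t i j).natAbs :=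
      Finset.single_le_sum (f := fun j => (t i j).natAbs) (fun _ _ => Nat.zero_le _)
        (Finset.mem_univ j)
    have h2 : ∑ j, (t i j).natAbs ≤ ∑ i, ∑ j, (t i j).natAbs :=
      Finset.single_le_sum (f := fun i => ∑ j, (t i j).natAbs) (fun _ _ => Nat.zero_le _)
        (Finset.mem_univ i)
    exact_mod_cast h1.trans h2
  set C : ℕ := (24 * B + 1) ^ 3 with hC
  have hC0 : 0 < C := by positivity
  have hCr : (0 : ℝ) < (C : ℝ) := by exact_mod_cast hC0
  refine ⟨(1 / 256) * ((64 * (C : ℝ)) ^ ((5 : ℝ) / 3))⁻¹, by positivity, ?_⟩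
  filter_upwards [eventually_ge_atTop C] with n hn
  -- choice of `m`
  have hex : ∃ m : ℕ, n < C * (m + 1) ^ 6 := by
    refine ⟨n, ?_⟩
    calc n < n + 1 := Nat.lt_succ_self n
      _ ≤ (n + 1) ^ 6 := Nat.le_self_pow (by norm_num) _
      _ ≤ C * (n + 1) ^ 6 := Nat.le_mul_of_pos_left _ hC0
  obtain ⟨m, hm1, hm2⟩ : ∃ m : ℕ, C * m ^ 6 ≤ n ∧ n < C * (m + 1) ^ 6 := by
    refine ⟨Nat.find hex, ?_, Nat.find_spec hex⟩
    rcases Nat.eq_zero_or_pos (Nat.find hex) with h0 | h0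
    · rw [h0]
      simp
    · have h1 := Nat.find_min hex (Nat.sub_lt h0 Nat.one_pos)
      rw [Nat.sub_add_cancel h0, not_lt] at h1
      exact h1
  have hm0 : 1 ≤ m := by
    by_contra h
    have h0 : m = 0 := by omega
    rw [h0] at hm2
    simp at hm2
    omega
  -- the points
  obtain ⟨P, hP1, hP2⟩ := Infinite.exists_superset_card_eq ((box B m).image emb) n (by
    refine le_trans Finset.card_image_le ?_
    rw [card_box]
    exact hm1)
  refine ⟨P, hP2, ?_⟩
  have hcount : ((params m).image (copy t)).card ≤ s P T := by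
    rw [← Set.ncard_coe_finset]
    apply Set.ncard_le_ncard _ (finite_s P T)
    intro A hA
    rw [Finset.mem_coe, Finset.mem_image] at hA
    obtain ⟨p, hp, rfl⟩ := hA
    exact ⟨(copy_subset t B hB m hp).trans hP1, copy_tetra t ht m hp, copy_similar t T hT m hp⟩
  have h10 : m ^ 10 ≤ 256 * s P T :=
    (card_copies t ht m).trans (Nat.mul_le_mul_left 256 hcount)
  have h10r : (m : ℝ) ^ 10 ≤ 256 * (s P T : ℝ) := by exact_mod_cast h10
  have hnm : (n : ℝ) ≤ 64 * (C : ℝ) * (m : ℝ) ^ 6 := by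
    have h1 : n ≤ C * (2 * m) ^ 6 := by
      refine hm2.le.trans (Nat.mul_le_mul_left C (Nat.pow_le_pow_left ?_ 6))
      omega
    have h2 : (n : ℝ) ≤ (C : ℝ) * (2 * (m : ℝ)) ^ 6 := by exact_mod_cast h1
    calc (n : ℝ) ≤ (C : ℝ) * (2 * (m : ℝ)) ^ 6 := h2
      _ = 64 * (C : ℝ) * (m : ℝ) ^ 6 := by ring
  have hpow : (n : ℝ) ^ ((5 : ℝ) / 3) ≤ (64 * (C : ℝ)) ^ ((5 : ℝ) / 3) * (m : ℝ) ^ 10 := by
    calc (n : ℝ) ^ ((5 : ℝ) / 3) ≤ (64 * (C : ℝ) * (m : ℝ) ^ 6) ^ ((5 : ℝ) / 3) :=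
          Real.rpow_le_rpow (Nat.cast_nonneg n) hnm (by norm_num)
      _ = (64 * (C : ℝ)) ^ ((5 : ℝ) / 3) * ((m : ℝ) ^ 6) ^ ((5 : ℝ) / 3) :=
          Real.mul_rpow (by positivity) (by positivity)
      _ = (64 * (C : ℝ)) ^ ((5 : ℝ) / 3) * (m : ℝ) ^ 10 := by
          congr 1
          rw [← Real.rpow_natCast (m : ℝ) 6, ← Real.rpow_mul (Nat.cast_nonneg m),
            ← Real.rpow_natCast (m : ℝ) 10]
          norm_num
  have hD : (0 : ℝ) < (64 * (C : ℝ)) ^ ((5 : ℝ) / 3) := by positivity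
  calc 1 / 256 * ((64 * (C : ℝ)) ^ ((5 : ℝ) / 3))⁻¹ * (n : ℝ) ^ ((5 : ℝ) / 3)
      ≤ 1 / 256 * ((64 * (C : ℝ)) ^ ((5 : ℝ) / 3))⁻¹ *
        ((64 * (C : ℝ)) ^ ((5 : ℝ) / 3) * (m : ℝ) ^ 10) := by gcongr
    _ = 1 / 256 * (m : ℝ) ^ 10 := by
        field_simp
    _ ≤ 1 / 256 * (256 * (s P T : ℝ)) := by gcongr
    _ = (s P T : ℝ) := by ring

/-- The origin and the three standard basis vectors. -/
def corner : Fin 4 → Fin 3 → ℤ := ![![0, 0, 0], ![1, 0, 0], ![0, 1, 0], ![0, 0, 1]]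

lemma corner_indep : AffineIndependent ℝ (fun i => emb (corner i)) := by
  rw [affineIndependent_iff_of_fintype]
  intro w hw h i
  rw [Finset.univ.weightedVSub_eq_linear_combination hw] at h
  have h0 : w 1 = 0 := by
    have := congrArg (fun v : E3 => v 0) h
    simpa [Fin.sum_univ_four, emb, corner] using this
  have h1 : w 2 = 0 := by
    have := congrArg (fun v : E3 => v 1) h
    simpa [Fin.sum_univ_four, emb, corner] using this
  have h2 : w 3 = 0 := by
    have := congrArg (fun v : E3 => v 2) h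
    simpa [Fin.sum_univ_four, emb, corner] using this
  have h3 : w 0 = 0 := by
    rw [Fin.sum_univ_four, h0, h1, h2] at hw
    simpa using hw
  fin_cases i
  · exact h3
  · exact h0
  · exact h1
  · exact h2

/-- `f n ≥ c n ^ (5 / 3)` for all large `n`; moreover for every tetrahedron `T` with integral
vertices and all large `n` there is a set of `n` points which spans at least `c n ^ (5 / 3)`
tetrahedra similar to `T`, where `c > 0` depends on `T` only. -/
theorem result :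
    (∃ c : ℝ, 0 < c ∧ ∀ᶠ n : ℕ in atTop, c * (n : ℝ) ^ ((5 : ℝ) / 3) ≤ (f n : ℝ)) ∧
    ∀ (t : Fin 4 → Fin 3 → ℤ) (T : Finset E3),
      AffineIndependent ℝ (fun i => (WithLp.toLp 2 (fun j => (t i j : ℝ)) : E3)) →
      (T : Set E3) = Set.range (fun i => (WithLp.toLp 2 (fun j => (t i j : ℝ)) : E3)) →
      ∃ c : ℝ, 0 < c ∧ ∀ᶠ n : ℕ in atTop, ∃ P : Finset E3, P.card = n ∧
        c * (n : ℝ) ^ ((5 : ℝ) / 3) ≤ (s P T : ℝ) := by
  constructor
  · have hT : (((Finset.univ : Finset (Fin 4)).image fun i => emb (corner i) : Finset E3) :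
        Set E3) = Set.range fun i => emb (corner i) := by simp
    obtain ⟨c, hc, h⟩ := exists_points corner corner_indep _ hT
    refine ⟨c, hc, ?_⟩
    filter_upwards [h] with n hn
    obtain ⟨P, hP, hle⟩ := hn
    refine hle.trans ?_
    have := s_le_f P _ ⟨_, corner_indep, hT⟩
    rw [hP] at this
    exact_mod_cast this
  · intro t T ht hT
    exact exists_points t ht T hT

end Pool.Agent.Results.MP_36f34d_co.SimilarTetrahedra
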